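import Pool.Agent.P.MP_25bc1d_an.AlD

open Pool.Agent.P.MP_25bc1d_an

/-- All shortest `μ`-forbidden patterns: their length is the least `n` with
`(2μ)^(n-2) (2-2μ) ≥ 1`, and they are the words `(r+1) ⋯ n 1 ⋯ r` for `1 ≤ r ≤ n-2` and the word
`(n-1) 1 2 ⋯ (n-2) n`. -/
theorem Pool.Agent.Results.MP_25bc1d_an.AllShortest.result
    (μ : ℝ) (h1 : 1 / 2 < μ) (h2 : μ < 1) (n : ℕ)
    (hn : IsLeast {k : ℕ | 1 ≤ (2 * μ) ^ (k - 2) * (2 - 2 * μ)} n) :
    {π | π ∈ Forbidden μ ∧ ∀ ρ ∈ Forbidden μ, π.length ≤ ρ.length} =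
      {π | (∃ r, 1 ≤ r ∧ r ≤ n - 2 ∧ π = (List.range' 1 n).rotate r) ∨
        π = (n - 1) :: (List.range' 1 (n - 2) ++ [n])} :=
  all_shortest μ h1 h2 n hn

/-- The number `n` exists and is at least `4`. -/
theorem Pool.Agent.Results.MP_25bc1d_an.AllShortest.exists_n
    (μ : ℝ) (h1 : 1 / 2 < μ) (h2 : μ < 1) :
    ∃ n, IsLeast {k : ℕ | 1 ≤ (2 * μ) ^ (k - 2) * (2 - 2 * μ)} n ∧ 4 ≤ n := by
  classical
  have hex : ∃ k : ℕ, 1 ≤ (2 * μ) ^ (k - 2) * (2 - 2 * μ) := by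
    obtain ⟨k, hk⟩ := pow_unbounded_of_one_lt (1 / (2 - 2 * μ)) (by linarith : 1 < 2 * μ)
    rw [div_lt_iff₀ (by linarith)] at hk
    exact ⟨k + 2, by simpa using hk.le⟩
  refine ⟨Nat.find hex, ⟨Nat.find_spec hex, fun k hk => Nat.find_min' hex hk⟩, ?_⟩
  by_contra hc
  have h3 : (2 * μ) ^ 1 * (2 - 2 * μ) < 1 := by nlinarith
  have := pow_mono_H (s := 2 * μ) (by linarith) (by linarith)
    (show Nat.find hex - 2 ≤ 1 by omega) h3
  linarith [Nat.find_spec hex]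

/-- Q1 follows: if `n` is the least length of a `μ`-forbidden pattern, then the word
`(n-1) n 1 2 ⋯ (n-2)` is `μ`-forbidden. -/
theorem Pool.Agent.Results.MP_25bc1d_an.AllShortest.q1
    (μ : ℝ) (h1 : 1 / 2 < μ) (h2 : μ < 1) (n : ℕ)
    (hn : IsLeast (List.length '' Forbidden μ) n) :
    ((n - 1) :: n :: List.range' 1 (n - 2)) ∈ Forbidden μ := by
  obtain ⟨N, hN, h4⟩ := Pool.Agent.Results.MP_25bc1d_an.AllShortest.exists_n μ h1 h2
  have h := Pool.Agent.Results.MP_25bc1d_an.AllShortest.result μ h1 h2 N hN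
  obtain ⟨k, rfl⟩ : ∃ k, N = k + 2 := ⟨N - 2, by omega⟩
  have e : (List.range' 1 (k + 2)).rotate k = (k + 1) :: (k + 2) :: List.range' 1 k := by
    have : List.range' 1 (k + 2) = List.range' 1 k ++ [k + 1, k + 2] := by
      rw [List.range'_concat, List.range'_concat]; simp; omega
    rw [this]
    simpa using List.rotate_append_length_eq (List.range' 1 k) [k + 1, k + 2]
  have hm : (List.range' 1 (k + 2)).rotate k ∈
      {π | π ∈ Forbidden μ ∧ ∀ ρ ∈ Forbidden μ, π.length ≤ ρ.length} := by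
    rw [h]; exact Or.inl ⟨k, by omega, by omega, rfl⟩
  obtain ⟨⟨π, hπ, rfl⟩, hlow⟩ := hn
  have l1 := hm.2 π hπ
  have l2 := hlow ⟨_, hm.1, rfl⟩
  rw [rho_length] at l1 l2
  rw [show π.length = k + 2 by omega, show k + 2 - 1 = k + 1 by omega, Nat.add_sub_cancel, ← e]
  exact hm.1
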