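import Pool.Agent.P.MP_25bc1d_an.PrF

open Pool.Agent.P.MP_25bc1d_an

/-- For two tent maps `T_μ`, `T_ν` and `n ≥ 1`: the points near `1/2` have one pattern `π` of
length `n` under `T_ν`, and `T_μ` allows `π` if and only if it allows every pattern of `T_ν` of
length at most `n`. -/
theorem Pool.Agent.Results.MP_25bc1d_an.TentPairs.result
    (μ ν : ℝ) (h1 : 1 / 2 < μ) (h2 : μ ≤ 1) (k1 : 1 / 2 < ν) (k2 : ν ≤ 1) (n : ℕ) (hn : 1 ≤ n) :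
    ∃ π : List ℕ, π.length = n ∧
      (∃ δ > 0, ∀ x : ℝ, x ≠ 1 / 2 → |x - 1 / 2| < δ → IsPattern (tent ν) x π) ∧
      (π ∈ Allow (tent μ) ↔ ∀ ρ ∈ Allow (tent ν), ρ.length ≤ n → ρ ∈ Allow (tent μ)) :=
  Pr.main_pair μ ν h1 h2 k1 k2 n hn

/-- If `n` is the least length of a pattern allowed by `T_ν` and not by `T_μ`, then the pattern of
the points near `1/2` is such a pattern. -/
theorem Pool.Agent.Results.MP_25bc1d_an.TentPairs.shortest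
    (μ ν : ℝ) (h1 : 1 / 2 < μ) (h2 : μ ≤ 1) (k1 : 1 / 2 < ν) (k2 : ν ≤ 1) (n : ℕ)
    (hn : IsLeast (List.length '' (Allow (tent ν) \ Allow (tent μ))) n) :
    ∃ π ∈ Allow (tent ν) \ Allow (tent μ), π.length = n ∧
      ∃ δ > 0, ∀ x : ℝ, x ≠ 1 / 2 → |x - 1 / 2| < δ → IsPattern (tent ν) x π := by
  obtain ⟨ρ, hρ, e⟩ := hn.1
  have hn1 : 1 ≤ n := e ▸ hρ.1.1
  obtain ⟨π, hl, hπ, h⟩ :=
    Pool.Agent.Results.MP_25bc1d_an.TentPairs.result μ ν h1 h2 k1 k2 n hn1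
  exact ⟨π, ⟨Pr.near_allow (hl ▸ hn1) (Pr.near_iff.2 hπ), fun a => hρ.2 (h.1 a ρ hρ.1 e.le)⟩,
    hl, hπ⟩

/-- Q1 is the case `ν = 1`, where the pattern is `(n-1) n 1 2 ⋯ (n-2)`. -/
theorem Pool.Agent.Results.MP_25bc1d_an.TentPairs.q1
    (μ : ℝ) (h1 : 1 / 2 < μ) (h2 : μ < 1) (n : ℕ)
    (hn : IsLeast (List.length '' (Allow (tent 1) \ Allow (tent μ))) n) :
    ((n - 1) :: n :: List.range' 1 (n - 2)) ∈ Allow (tent 1) \ Allow (tent μ) := by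
  obtain ⟨π, hπ, hl, hc⟩ := Pool.Agent.Results.MP_25bc1d_an.TentPairs.shortest μ 1 h1 h2.le
    (by norm_num) le_rfl n hn
  have h3 : 2 ≤ n := by
    by_contra h
    obtain ⟨⟨a, x, hx, b, -, -⟩, c⟩ := hπ
    refine c ⟨a, x, hx, b, fun i j q => absurd (Fin.ext (by omega)) q, fun i j => ?_⟩
    rw [show i = j from Fin.ext (by omega)]
    exact iff_of_false (lt_irrefl _) (lt_irrefl _)
  obtain ⟨k, rfl⟩ : ∃ k, n = k + 2 := ⟨n - 2, by omega⟩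
  obtain ⟨x, a, b⟩ := ((Pr.tend_left.eventually (Pr.near_iff.2 hc)).and (Pr.sigma_near k)).exists
  rw [Pr.pat_unique a b (hl.trans (sigma_length k).symm)] at hπ
  exact hπ
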