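import Pool.Agent.P.MP_25bc1d_an.Uni3

open Pool.Agent.P.MP_25bc1d_an

/-- For every unimodal map `f` of `[0,1]` with `f 0 = f 1 = 0`: if `n` is the least length of a
pattern allowed by the full tent map and not by `f`, then `σ_n` is such a pattern. -/
theorem Pool.Agent.Results.MP_25bc1d_an.Unimodal.result
    (f : ℝ → ℝ) (c : ℝ) (hc0 : 0 < c) (hc1 : c < 1) (hf : ContinuousOn f (Set.Icc 0 1))
    (hL : StrictMonoOn f (Set.Icc 0 c)) (hR : StrictAntiOn f (Set.Icc c 1))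
    (h0 : f 0 = 0) (h1 : f 1 = 0) (htop : f c ≤ 1) (n : ℕ)
    (hn : IsLeast (List.length '' (Allow (tent 1) \ Allow f)) n) :
    2 ≤ n ∧ sigma n ∈ Allow (tent 1) ∧ sigma n ∉ Allow f :=
  main_uni ⟨hc0, hc1, hf, hL, hR, h0, h1, htop⟩ n hn

/-- Q1 is the case `f = T_μ`, `c = 1/2`. -/
theorem Pool.Agent.Results.MP_25bc1d_an.Unimodal.q1 (μ : ℝ) (h1 : 1 / 2 < μ) (h2 : μ < 1) :
    ∃ n : ℕ, IsLeast (List.length '' Forbidden μ) n ∧ 2 ≤ n ∧
      sigma n ∈ Allow (tent 1) ∧ sigma n ∉ Allow (tent μ) := by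
  obtain ⟨n, hn, -⟩ := main μ h1 h2
  have h := uni_tent (μ := μ) (by linarith) h2.le
  exact ⟨n, hn, Pool.Agent.Results.MP_25bc1d_an.Unimodal.result _ _ h.c0 h.c1 h.cont h.mono h.anti
    h.f0 h.f1 h.top n hn⟩
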